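import Mathlib
import Pool.Agent.W837.Blow.Asym
import Pool.Agent.W837.Blow.Mol

set_option autoImplicit false

/-!
# `c(F)` is bounded in terms of `c(K_r)` for every `r`-colourable `F`

`c(F)` is the limsup of the maxima of `χ(G) / (Δ / log Δ)` over the `F`-free graphs `G` of maximum
degree `Δ`.  We show that `c(F) ≤ (r choose 2) t^(r-1) c(K_r)` if `F` has a proper colouring with
`r ≥ 3` colours in which all classes but one have at most `t` vertices.  In particular `c(F)` is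
finite for every 3-colourable graph `F`: every `F`-free graph of maximum degree `Δ` has chromatic
number `O(Δ / log Δ)`.

Idea.  Call an `(r-1)`-clique heavy if it has at least `Δ^(1-ε)` extensions to an `r`-clique, an
`(r-2)`-clique heavy if it has at least `Δ^(1-ε')` extensions to a heavy `(r-1)`-clique, and so on,
down to heavy edges.  If every vertex of a nonempty set `X` had many heavy neighbours in `X`, then
counting the blow-ups of cliques in the neighbourhoods of the vertices of `X` and comparing with the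
number of all blow-ups that start in `X` would give a blow-up with many common neighbours, hence a
copy of `F`.  So the heavy edges can be oriented with small out-degrees.  A random partition into
`Δ^(1-δ)` parts (local lemma) is such that the `r`-cliques inside the parts are hit by sets of
bounded size attached to the vertices; then each part is coloured as if it was `K_r`-free.
-/

namespace Pool.Agent.Results.MP_349e33_co.CliqueBlowups

open Filter Finset Pool.Agent.Helper311.Glue Classical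
open scoped ENNReal

section Definitions

variable {W : Type}

/-- `c(F, Δ)`: the supremum of `χ(G) / (Δ / log Δ)` over all finite `F`-free graphs `G` of maximum
degree `Δ` (it is `0` if there are none). -/
noncomputable def cAt (F : SimpleGraph W) (Δ : ℕ) : ℝ≥0∞ :=
  ⨆ (V : Type) (_ : Fintype V) (G : SimpleGraph V) (_ : F.Free G) (_ : G.maxDegree = Δ),
    ENNReal.ofReal ((G.chromaticNumber.toNat : ℝ) / ((Δ : ℝ) / Real.log (Δ : ℝ)))

/-- `c(F) = limsup c(F, Δ) ∈ [0, ∞]` as `Δ → ∞`. -/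
noncomputable def c (F : SimpleGraph W) : ℝ≥0∞ := limsup (cAt F) atTop

end Definitions

theorem upTo_of_c_le {W : Type} (F : SimpleGraph W) (a : ℝ) (ha : 0 ≤ a)
    (h : c F ≤ ENNReal.ofReal a) : UpTo F a := by
  intro ε hε
  have h1 : c F < ENNReal.ofReal (a + ε) :=
    lt_of_le_of_lt h ((ENNReal.ofReal_lt_ofReal_iff (by linarith)).2 (by linarith))
  have h2 : ∀ᶠ Δ in atTop, cAt F Δ < ENNReal.ofReal (a + ε) := eventually_lt_of_limsup_lt h1
  obtain ⟨Δ₀, hΔ₀⟩ := eventually_atTop.1 h2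
  refine ⟨max Δ₀ 2, ?_⟩
  intro Δ hΔ V instV G inst hfree hmax
  have hinst : inst = fun a b => Classical.propDecidable (G.Adj a b) := Subsingleton.elim _ _
  subst hinst
  have h3 := hΔ₀ Δ ((le_max_left _ _).trans hΔ)
  have hΔ2 : (1 : ℝ) < Δ := by
    have : 2 ≤ Δ := (le_max_right _ _).trans hΔ
    exact_mod_cast (show 1 < Δ by omega)
  have hpos : 0 < (Δ : ℝ) / Real.log Δ := div_pos (by linarith) (Real.log_pos hΔ2)
  refine ⟨G.chromaticNumber.toNat, SimpleGraph.colorable_chromaticNumber_of_fintype G, ?_⟩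
  have h4 : ENNReal.ofReal ((G.chromaticNumber.toNat : ℝ) / ((Δ : ℝ) / Real.log (Δ : ℝ))) ≤
      cAt F Δ := by
    unfold cAt
    refine le_iSup_of_le V ?_
    refine le_iSup_of_le instV ?_
    refine le_iSup_of_le G ?_
    refine le_iSup_of_le hfree ?_
    exact le_iSup_of_le hmax (le_refl _)
  have h5 := lt_of_le_of_lt h4 h3
  rw [ENNReal.ofReal_lt_ofReal_iff (by linarith), div_lt_iff₀ hpos] at h5
  exact h5.le

theorem c_le_of_upTo {W : Type} (F : SimpleGraph W) (a : ℝ) (ha : 0 ≤ a)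
    (h : UpTo F a) : c F ≤ ENNReal.ofReal a := by
  refine ENNReal.le_of_forall_pos_le_add ?_
  intro ε hε _
  have hε' : (0 : ℝ) < ε := by exact_mod_cast hε
  obtain ⟨Δ₀, hΔ₀⟩ := h ε hε'
  have h1 : ENNReal.ofReal a + (ε : ℝ≥0∞) = ENNReal.ofReal (a + ε) := by
    rw [ENNReal.ofReal_add ha hε'.le, ENNReal.ofReal_coe_nnreal]
  rw [h1]
  refine limsup_le_of_le (by isBoundedDefault) ?_
  filter_upwards [eventually_ge_atTop (max Δ₀ 2)] with Δ hΔ
  have hΔ2 : (1 : ℝ) < Δ := by
    have : 2 ≤ Δ := (le_max_right _ _).trans hΔ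
    exact_mod_cast (show 1 < Δ by omega)
  have hpos : 0 < (Δ : ℝ) / Real.log Δ := div_pos (by linarith) (Real.log_pos hΔ2)
  unfold cAt
  refine iSup_le fun V => iSup_le fun _ => iSup_le fun G => iSup_le fun hfree =>
    iSup_le fun hmax => ?_
  obtain ⟨n, hn, hn2⟩ := hΔ₀ Δ ((le_max_left _ _).trans hΔ) V G hfree hmax
  apply ENNReal.ofReal_le_ofReal
  rw [div_le_iff₀ hpos]
  refine le_trans ?_ hn2
  exact_mod_cast ENat.toNat_le_of_le_natCast hn.chromaticNumber_le

/-- the main bound -/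
theorem blowup_bound {W : Type} [Fintype W] (F : SimpleGraph W) (r t : ℕ)
    (κ : F.Coloring (Fin r)) (i₀ : Fin r) (hr : 3 ≤ r) (ht : 1 ≤ t)
    (hκ : ∀ i, i ≠ i₀ → {w | κ w = i}.ncard ≤ t) :
    c F ≤ ((r.choose 2 * t ^ (r - 1) : ℕ) : ℝ≥0∞) * c (⊤ : SimpleGraph (Fin r)) := by
  obtain ⟨k, rfl⟩ := Nat.exists_eq_add_of_le' (show 2 ≤ r by omega)
  have hb : 1 ≤ (k + 2).choose 2 := Nat.choose_pos (by omega)
  have hB : 1 ≤ (k + 2).choose 2 * t ^ (k + 2 - 1) :=
    Nat.mul_pos hb (Nat.one_le_pow _ _ ht)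
  by_cases htop : c (⊤ : SimpleGraph (Fin (k + 2))) = ∞
  · rw [htop, ENNReal.mul_top]
    · exact le_top
    · exact_mod_cast (show (k + 2).choose 2 * t ^ (k + 2 - 1) ≠ 0 by omega)
  have h1 : UpTo (⊤ : SimpleGraph (Fin (k + 2))) (c (⊤ : SimpleGraph (Fin (k + 2)))).toReal :=
    upTo_of_c_le _ _ ENNReal.toReal_nonneg (by rw [ENNReal.ofReal_toReal htop])
  have h2 := Pool.Agent.W837.Blow.main F k t (by omega) ht κ i₀ (fun i hi => by
    have := hκ i hi
    rw [Set.ncard_eq_toFinset_card'] at this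
    refine le_trans (le_of_eq ?_) this
    congr 1
    ext w
    simp) _ ENNReal.toReal_nonneg h1
  have h3 := c_le_of_upTo F _ (mul_nonneg ENNReal.toReal_nonneg (Nat.cast_nonneg _)) h2
  refine h3.trans (le_of_eq ?_)
  rw [ENNReal.ofReal_mul ENNReal.toReal_nonneg, ENNReal.ofReal_toReal htop,
    ENNReal.ofReal_natCast, mul_comm]
  rfl

theorem c_triangle : c (⊤ : SimpleGraph (Fin 3)) ≤ 1 := by
  have := c_le_of_upTo _ 1 zero_le_one Pool.Agent.W837.Blow.upTo_triangle
  simpa using this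

theorem finite_of_colorable {W : Type} [Fintype W] (F : SimpleGraph W) (r : ℕ) (hr : 3 ≤ r)
    (hF : F.Colorable r) (hK : c (⊤ : SimpleGraph (Fin r)) < ∞) : c F < ∞ := by
  obtain ⟨κ⟩ := hF
  have h1 := blowup_bound F r (Fintype.card W + 1) κ ⟨0, by omega⟩ hr (by omega) (fun i _ => by
    have h2 := Set.ncard_le_ncard (Set.subset_univ {w | κ w = i})
    rw [Set.ncard_univ, Nat.card_eq_fintype_card] at h2
    omega)
  refine lt_of_le_of_lt h1 ?_
  exact ENNReal.mul_lt_top (ENNReal.natCast_lt_top _) hK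

theorem three_bound {W : Type} [Fintype W] (F : SimpleGraph W) (t : ℕ)
    (κ : F.Coloring (Fin 3)) (i₀ : Fin 3) (ht : 1 ≤ t)
    (hκ : ∀ i, i ≠ i₀ → {w | κ w = i}.ncard ≤ t) : c F ≤ ((3 * t ^ 2 : ℕ) : ℝ≥0∞) := by
  have h1 := blowup_bound F 3 t κ i₀ le_rfl ht hκ
  have h2 : (3 : ℕ).choose 2 * t ^ (3 - 1) = 3 * t ^ 2 := by
    rw [show (3 : ℕ).choose 2 = 3 by decide]
  rw [h2] at h1
  refine h1.trans ?_
  calc ((3 * t ^ 2 : ℕ) : ℝ≥0∞) * c (⊤ : SimpleGraph (Fin 3)) ≤ ((3 * t ^ 2 : ℕ) : ℝ≥0∞) * 1 :=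
        mul_le_mul_of_nonneg_left c_triangle (zero_le)
    _ = _ := mul_one _

theorem finite_three {W : Type} [Fintype W] (F : SimpleGraph W) (hF : F.Colorable 3) :
    c F < ∞ :=
  finite_of_colorable F 3 le_rfl hF (lt_of_le_of_lt c_triangle ENNReal.one_lt_top)

/-- the bound for all maximum degrees -/
theorem aks_three {W : Type} [Fintype W] (F : SimpleGraph W) (hF : F.Colorable 3) :
    ∃ C : ℝ, ∀ (V : Type) [Fintype V] (G : SimpleGraph V), F.Free G → 2 ≤ G.maxDegree →
      (G.chromaticNumber.toNat : ℝ) ≤ C * ((G.maxDegree : ℝ) / Real.log G.maxDegree) := by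
  have h1 := finite_three F hF
  obtain ⟨Δ₀, hΔ₀⟩ := upTo_of_c_le F (c F).toReal ENNReal.toReal_nonneg
    (by rw [ENNReal.ofReal_toReal h1.ne]) 1 one_pos
  have ha : 0 ≤ (c F).toReal := ENNReal.toReal_nonneg
  refine ⟨((c F).toReal + 1) + 2 * (2 * Δ₀ + 1), ?_⟩
  intro V _ G hfree hdeg
  set Δ := G.maxDegree with hΔ
  have hΔ1 : (1 : ℝ) < Δ := by exact_mod_cast (show 1 < Δ by omega)
  have hbig := big_div_log hΔ1
  have hsq : 1 ≤ Real.sqrt (Δ : ℝ) := by
    rw [show (1 : ℝ) = Real.sqrt 1 by simp]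
    exact Real.sqrt_le_sqrt hΔ1.le
  have hhalf : 1 / 2 ≤ (Δ : ℝ) / Real.log Δ := by linarith
  by_cases hD : Δ₀ ≤ Δ
  · obtain ⟨n, hn, hn2⟩ := hΔ₀ Δ hD V G hfree rfl
    have h2 : (G.chromaticNumber.toNat : ℝ) ≤ n := by
      exact_mod_cast ENat.toNat_le_of_le_natCast hn.chromaticNumber_le
    refine h2.trans (hn2.trans ?_)
    refine mul_le_mul_of_nonneg_right ?_ (by linarith)
    have : (0 : ℝ) ≤ Δ₀ := by positivity
    linarith
  · push Not at hD
    obtain ⟨γ, hγ1, hγ2⟩ := degen (fun v : V => G.neighborFinset v) Δ₀ (fun v => by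
        rw [SimpleGraph.card_neighborFinset_eq_degree]
        exact (G.degree_le_maxDegree v).trans hD.le) (fun v => by simp) _ univ rfl
    have hcol : G.Colorable (2 * Δ₀ + 1) :=
      ⟨SimpleGraph.Coloring.mk (fun v => (⟨γ v, hγ1 v⟩ : Fin (2 * Δ₀ + 1)))
        (fun {u v} huv h => hγ2 u (mem_univ _) v (mem_univ _)
          (by rw [SimpleGraph.mem_neighborFinset]; exact huv) (Fin.mk.inj_iff.1 h))⟩
    have h2 : (G.chromaticNumber.toNat : ℝ) ≤ ((2 * Δ₀ + 1 : ℕ) : ℝ) := by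
      exact_mod_cast ENat.toNat_le_of_le_natCast hcol.chromaticNumber_le
    push_cast at h2
    have h3 : (0 : ℝ) ≤ Δ₀ := by positivity
    nlinarith

/-- **`c(F)` and cliques.**
1. If `F` has a proper colouring with `r ≥ 3` colours in which all classes but one have at most `t`
   vertices (`t ≥ 1`) then `c(F) ≤ (r choose 2) t ^ (r - 1) c(K_r)`.  In particular `c(F)` is finite
   for all `r`-colourable `F` if `c(K_r)` is finite.
2. For `r = 3` this is unconditional: `c(F) ≤ 3 t ^ 2`.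
3. Hence for every 3-colourable graph `F` there is a constant `C` such that all `F`-free graphs of
   maximum degree `Δ ≥ 2` have chromatic number at most `C Δ / log Δ`. -/
theorem result :
    (∀ {W : Type} [Fintype W] (F : SimpleGraph W) (r t : ℕ) (κ : F.Coloring (Fin r))
      (i₀ : Fin r), 3 ≤ r → 1 ≤ t → (∀ i, i ≠ i₀ → {w | κ w = i}.ncard ≤ t) →
      c F ≤ ((r.choose 2 * t ^ (r - 1) : ℕ) : ℝ≥0∞) * c (⊤ : SimpleGraph (Fin r))) ∧
    (∀ {W : Type} [Fintype W] (F : SimpleGraph W) (t : ℕ) (κ : F.Coloring (Fin 3))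
      (i₀ : Fin 3), 1 ≤ t → (∀ i, i ≠ i₀ → {w | κ w = i}.ncard ≤ t) →
      c F ≤ ((3 * t ^ 2 : ℕ) : ℝ≥0∞)) ∧
    (∀ {W : Type} [Fintype W] (F : SimpleGraph W), F.Colorable 3 →
      ∃ C : ℝ, ∀ (V : Type) [Fintype V] (G : SimpleGraph V), F.Free G → 2 ≤ G.maxDegree →
        (G.chromaticNumber.toNat : ℝ) ≤ C * ((G.maxDegree : ℝ) / Real.log G.maxDegree)) :=
  ⟨fun F r t κ i₀ hr ht hκ => blowup_bound F r t κ i₀ hr ht hκ,
    fun F t κ i₀ ht hκ => three_bound F t κ i₀ ht hκ,
    fun F hF => aks_three F hF⟩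

end Pool.Agent.Results.MP_349e33_co.CliqueBlowups
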